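import Mathlib

set_option autoImplicit false

/-!
Tangent cosets of one-dimensional subtori and the truncated counting function.
-/

namespace Pool.Agent.X323.TV

open MvPolynomial

/-- restriction of a polynomial to the curve `T ↦ (u i T ^ k i)` -/
noncomputable def onCurve {R : Type*} [CommRing R] {ι : Type*} (u : ι → R) (k : ι → ℕ) :
    MvPolynomial ι R →ₐ[R] Polynomial R :=
  aeval (fun i => Polynomial.C (u i) * Polynomial.X ^ k i)

theorem eval_onCurve {R : Type*} [CommRing R] {ι : Type*} (u : ι → R) (k : ι → ℕ)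
    (P : MvPolynomial ι R) (t : R) :
    (onCurve u k P).eval t = eval (fun i => u i * t ^ k i) P := by
  induction P using MvPolynomial.induction_on with
  | C a => simp [onCurve]
  | add p q hp hq => rw [map_add, Polynomial.eval_add, hp, hq, map_add]
  | mul_X p i hp => rw [map_mul, Polynomial.eval_mul, hp, map_mul]; simp [onCurve]

theorem eval_onCurve_one {R : Type*} [CommRing R] {ι : Type*} (u : ι → R) (k : ι → ℕ)
    (P : MvPolynomial ι R) : (onCurve u k P).eval 1 = eval u P := by
  rw [eval_onCurve]
  simp

theorem derivative_onCurve_one {R : Type*} [CommRing R] {ι : Type*} [Fintype ι] (u : ι → R)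
    (k : ι → ℕ) (P : MvPolynomial ι R) :
    (Polynomial.derivative (onCurve u k P)).eval 1 =
      ∑ i, (k i : R) * u i * eval u (pderiv i P) := by
  classical
  induction P using MvPolynomial.induction_on with
  | C a => simp [onCurve]
  | add p q hp hq =>
    rw [map_add, Polynomial.derivative_add, Polynomial.eval_add, hp, hq,
      ← Finset.sum_add_distrib]
    exact Finset.sum_congr rfl fun i _ => by rw [map_add, map_add]; ring
  | mul_X p j hp =>
    have h1 : onCurve u k (p * X j) =
        onCurve u k p * (Polynomial.C (u j) * Polynomial.X ^ k j) := by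
      rw [map_mul]; simp [onCurve]
    have h2 : ∀ i, (k i : R) * u i * eval u (pderiv i (p * X j)) =
        u j * ((k i : R) * u i * eval u (pderiv i p)) +
          (if i = j then (k i : R) * u i * eval u p else 0) := by
      intro i
      rw [Derivation.leibniz, pderiv_X]
      by_cases hij : i = j
      · subst hij
        simp
        ring
      · rw [if_neg hij, Pi.single_eq_of_ne (Ne.symm hij)]
        simp
        ring
    rw [Finset.sum_congr rfl fun i _ => h2 i, Finset.sum_add_distrib, ← Finset.mul_sum, ← hp,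
      Finset.sum_ite_eq' Finset.univ j, if_pos (Finset.mem_univ j), h1,
      Polynomial.derivative_mul, Polynomial.eval_add, Polynomial.eval_mul,
      Polynomial.eval_mul (p := onCurve u k p), eval_onCurve_one, Polynomial.derivative_C_mul,
      Polynomial.derivative_X_pow]
    simp
    ring

theorem onCurve_eq_sum {R : Type*} [CommRing R] {ι : Type*} [Fintype ι] (u : ι → R) (k : ι → ℕ)
    (P : MvPolynomial ι R) :
    onCurve u k P = ∑ s ∈ P.support, Polynomial.C (coeff s P * ∏ i, u i ^ s i) *
      Polynomial.X ^ (∑ i, k i * s i) := by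
  unfold onCurve
  rw [aeval_def, eval₂_eq']
  refine Finset.sum_congr rfl fun s _ => ?_
  rw [Polynomial.C_mul, mul_assoc]
  congr 1
  rw [Finset.prod_congr rfl fun i _ => mul_pow _ _ _, Finset.prod_mul_distrib]
  congr 1
  · rw [map_prod]
    exact Finset.prod_congr rfl fun i _ => by rw [map_pow]
  · rw [Finset.prod_congr rfl fun i _ => (pow_mul _ _ _).symm, Finset.prod_pow_eq_pow_sum]

theorem natDegree_onCurve_le {R : Type*} [CommRing R] {ι : Type*} [Fintype ι] (u : ι → R)
    (k : ι → ℕ) (P : MvPolynomial ι R) {e d : ℕ} (hP : P.IsHomogeneous e) (hk : ∀ i, k i ≤ d) :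
    (onCurve u k P).natDegree ≤ e * d := by
  rw [onCurve_eq_sum]
  refine Polynomial.natDegree_sum_le_of_forall_le _ _ fun s hs => ?_
  refine (Polynomial.natDegree_C_mul_X_pow_le _ _).trans ?_
  have hdeg : ∑ i, s i = e := by
    have := hP (mem_support_iff.1 hs)
    rw [← this, Finsupp.weight_apply, Finsupp.sum_fintype _ _ (by simp)]
    simp
  calc ∑ i, k i * s i ≤ ∑ i, d * s i := Finset.sum_le_sum fun i _ => Nat.mul_le_mul_right _ (hk i)
    _ = e * d := by rw [← Finset.mul_sum, hdeg, mul_comm]

/-- a form which contains the `e`-th power of the variable `i` does not vanish on the curve if the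
exponent `k i` is larger than all the others -/
theorem onCurve_ne_zero {R : Type*} [CommRing R] [IsDomain R] {ι : Type*} [Fintype ι]
    [DecidableEq ι] (u : ι → R) (k : ι → ℕ) (P : MvPolynomial ι R) {e : ℕ}
    (hP : P.IsHomogeneous e) (i : ι) (hi : coeff (Finsupp.single i e) P ≠ 0) (hu : u i ≠ 0)
    (hk : ∀ j, j ≠ i → k j < k i) : onCurve u k P ≠ 0 := by
  intro h
  have h1 : (onCurve u k P).coeff (k i * e) = coeff (Finsupp.single i e) P * u i ^ e := by
    rw [onCurve_eq_sum, Polynomial.finsetSum_coeff]
    rw [Finset.sum_eq_single (Finsupp.single i e)]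
    · have e1 : ∑ j, k j * (Finsupp.single i e) j = k i * e := by
        rw [Finset.sum_eq_single i]
        · simp
        · intro j _ hj
          rw [Finsupp.single_eq_of_ne hj, mul_zero]
        · intro h'; exact absurd (Finset.mem_univ i) h'
      have e2 : ∏ j, u j ^ (Finsupp.single i e) j = u i ^ e := by
        rw [Finset.prod_eq_single i]
        · simp
        · intro j _ hj
          rw [Finsupp.single_eq_of_ne hj, pow_zero]
        · intro h'; exact absurd (Finset.mem_univ i) h'
      rw [e1, e2, Polynomial.coeff_C_mul, Polynomial.coeff_X_pow, if_pos rfl, mul_one]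
    · intro s hs hne
      rw [Polynomial.coeff_C_mul, Polynomial.coeff_X_pow, if_neg, mul_zero]
      intro heq
      have hdeg : ∑ j, s j = e := by
        have := hP (mem_support_iff.1 hs)
        rw [← this, Finsupp.weight_apply, Finsupp.sum_fintype _ _ (by simp)]
        simp
      apply hne
      -- all other exponents vanish
      have h2 : ∀ j, j ≠ i → s j = 0 := by
        intro j hj
        by_contra hsj
        have h3 : ∑ l, k l * s l < ∑ l, k i * s l := by
          refine Finset.sum_lt_sum (fun l _ => ?_) ⟨j, Finset.mem_univ j, ?_⟩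
          · rcases eq_or_ne l i with rfl | hl
            · exact le_refl _
            · exact Nat.mul_le_mul_right _ (hk l hl).le
          · exact Nat.mul_lt_mul_of_pos_right (hk j hj) (Nat.pos_of_ne_zero hsj)
        rw [← Finset.mul_sum, hdeg] at h3
        omega
      ext j
      rcases eq_or_ne j i with rfl | hj
      · rw [Finsupp.single_eq_same, ← hdeg, Finset.sum_eq_single j]
        · intro l _ hl; exact h2 l hl
        · intro h'; exact absurd (Finset.mem_univ j) h'
      · rw [h2 j hj, Finsupp.single_eq_of_ne hj]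
    · intro hns
      rw [notMem_support_iff] at hns
      exact absurd hns hi
  rw [h, Polynomial.coeff_zero] at h1
  exact mul_ne_zero hi (pow_ne_zero _ hu) h1.symm

/-- a vector with sum zero and at least three coordinates is orthogonal to a vector of natural
numbers with a unique maximum and a zero coordinate -/
theorem exists_k {n : ℕ} (hn : 2 ≤ n) (w : Fin (n + 1) → ℤ) (hw : ∑ i, w i = 0) :
    ∃ k : Fin (n + 1) → ℕ, ∑ i, (k i : ℤ) * w i = 0 ∧ (∃ j, k j = 0) ∧
      ∃ i, ∀ j, j ≠ i → k j < k i := by
  classical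
  by_cases h0 : ∃ i, w i = 0
  · obtain ⟨i, hi⟩ := h0
    refine ⟨fun j => if j = i then 1 else 0, ?_, ?_, i, ?_⟩
    · rw [Finset.sum_eq_single i]
      · simp [hi]
      · intro j _ hj; simp [hj]
      · intro h; exact absurd (Finset.mem_univ i) h
    · have : 1 < Fintype.card (Fin (n + 1)) := by rw [Fintype.card_fin]; omega
      obtain ⟨j, hj⟩ := Fintype.exists_ne_of_one_lt_card this i
      exact ⟨j, by simp [hj]⟩
    · intro j hj; simp [hj]
  push Not at h0
  -- a sign change
  by_cases h1 : ∃ i l, w i < 0 ∧ 0 < w l ∧ (w i).natAbs ≠ (w l).natAbs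
  · obtain ⟨i, l, hi, hl, hne⟩ := h1
    have hil : i ≠ l := by rintro rfl; omega
    obtain ⟨j, hji, hjl⟩ : ∃ j, j ≠ i ∧ j ≠ l := by
      have : ({i, l} : Finset (Fin (n + 1))).card < (Finset.univ : Finset (Fin (n + 1))).card := by
        rw [Finset.card_univ, Fintype.card_fin]
        exact lt_of_le_of_lt (Finset.card_le_two) (by omega)
      obtain ⟨j, _, hj⟩ := Finset.exists_mem_notMem_of_card_lt_card this
      simp only [Finset.mem_insert, Finset.mem_singleton, not_or] at hj
      exact ⟨j, hj.1, hj.2⟩
    set k : Fin (n + 1) → ℕ := fun j => if j = i then (w l).natAbs else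
      if j = l then (w i).natAbs else 0 with hk
    have ki : k i = (w l).natAbs := by simp [hk]
    have kl : k l = (w i).natAbs := by simp [hk, hil.symm]
    have ko : ∀ j, j ≠ i → j ≠ l → k j = 0 := by intro j a b; simp [hk, a, b]
    refine ⟨k, ?_, ⟨j, ko j hji hjl⟩, ?_⟩
    · rw [← Finset.sum_subset (Finset.subset_univ {i, l})]
      · rw [Finset.sum_pair hil, ki, kl]
        rw [Int.natAbs_of_nonneg hl.le, Int.ofNat_natAbs_of_nonpos hi.le]
        ring
      · intro j _ hj
        simp only [Finset.mem_insert, Finset.mem_singleton, not_or] at hj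
        rw [ko j hj.1 hj.2]
        simp
    · have hi' : 0 < (w i).natAbs := Int.natAbs_pos.2 hi.ne
      have hl' : 0 < (w l).natAbs := Int.natAbs_pos.2 hl.ne'
      rcases lt_or_gt_of_ne hne with h | h
      · refine ⟨i, fun j hj => ?_⟩
        rcases eq_or_ne j l with rfl | hjl
        · rw [ki, kl]; exact h
        · rw [ko j hj hjl, ki]; exact hl'
      · refine ⟨l, fun j hj => ?_⟩
        rcases eq_or_ne j i with rfl | hji
        · rw [ki, kl]; exact h
        · rw [ko j hji hj, kl]; exact hi'
  push Not at h1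
  -- there are positive and negative entries, and all have the same absolute value
  have hpos : ∃ l, 0 < w l := by
    by_contra h
    push Not at h
    have h2 : ∀ i ∈ Finset.univ, w i = 0 :=
      (Finset.sum_eq_zero_iff_of_nonpos (fun i _ => h i)).1 hw
    exact h0 0 (h2 0 (Finset.mem_univ 0))
  have hneg : ∃ l, w l < 0 := by
    by_contra h
    push Not at h
    have h2 : ∀ i ∈ Finset.univ, w i = 0 :=
      (Finset.sum_eq_zero_iff_of_nonneg (fun i _ => h i)).1 hw
    exact h0 0 (h2 0 (Finset.mem_univ 0))
  obtain ⟨a, ha⟩ := hpos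
  obtain ⟨b, hb⟩ := hneg
  have hab := h1 b a hb ha
  set c := w a with hc
  have hposv : ∀ l, 0 < w l → w l = c := by
    intro l hl
    have := h1 b l hb hl
    omega
  have hnegv : ∀ l, w l < 0 → w l = -c := by
    intro l hl
    have := h1 l a hl ha
    omega
  -- the numbers of the positive and of the negative entries are equal
  set Pp := Finset.univ.filter (fun i => 0 < w i) with hPp
  set Nn := Finset.univ.filter (fun i => ¬ 0 < w i) with hNn
  have hsum : (Pp.card : ℤ) * c - (Nn.card : ℤ) * c = 0 := by
    rw [← hw, ← Finset.sum_filter_add_sum_filter_not Finset.univ (fun i => 0 < w i)]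
    rw [Finset.sum_congr rfl (g := fun _ => c) (fun i hi => hposv i (Finset.mem_filter.1 hi).2)]
    rw [Finset.sum_congr (s₁ := Finset.univ.filter (fun i => ¬ 0 < w i)) rfl
      (g := fun _ => -c) (fun i hi => hnegv i (by
        have h2 := (Finset.mem_filter.1 hi).2
        have h3 := h0 i
        omega))]
    rw [Finset.sum_const, Finset.sum_const, nsmul_eq_mul, nsmul_eq_mul]
    ring
  have hcard : Pp.card = Nn.card := by
    have h2 : ((Pp.card : ℤ) - Nn.card) * c = 0 := by linear_combination hsum
    rcases mul_eq_zero.1 h2 with h3 | h3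
    · omega
    · omega
  have htot : Pp.card + Nn.card = n + 1 := by
    have := Finset.card_filter_add_card_filter_not (s := (Finset.univ : Finset (Fin (n + 1))))
      (fun i => 0 < w i)
    rw [Finset.card_univ, Fintype.card_fin] at this
    exact this
  have hP2 : 1 < Pp.card := by omega
  have hN2 : 1 < Nn.card := by omega
  obtain ⟨i, hi, i', hi', hii⟩ := Finset.one_lt_card.1 hP2
  obtain ⟨l, hl, l', hl', hll⟩ := Finset.one_lt_card.1 hN2
  have wi := hposv i (Finset.mem_filter.1 hi).2
  have wi' := hposv i' (Finset.mem_filter.1 hi').2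
  have wl : w l = -c := hnegv l (by
    have h2 := (Finset.mem_filter.1 hl).2
    have h3 := h0 l
    omega)
  have wl' : w l' = -c := hnegv l' (by
    have h2 := (Finset.mem_filter.1 hl').2
    have h3 := h0 l'
    omega)
  have hil : i ≠ l := by rintro rfl; omega
  have hil' : i ≠ l' := by rintro rfl; omega
  have hi'l : i' ≠ l := by rintro rfl; omega
  have hi'l' : i' ≠ l' := by rintro rfl; omega
  set k : Fin (n + 1) → ℕ := fun j => if j = i then 2 else if j = l then 1 else
    if j = l' then 1 else 0 with hk
  have ki : k i = 2 := by simp [hk]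
  have kl : k l = 1 := by simp [hk, hil.symm]
  have kl' : k l' = 1 := by simp [hk, hil'.symm]
  have ki' : k i' = 0 := by simp [hk, hii.symm, hi'l, hi'l']
  refine ⟨k, ?_, ⟨i', ki'⟩, i, ?_⟩
  · rw [← Finset.sum_subset (Finset.subset_univ {i, l, l'})]
    · rw [Finset.sum_insert (by simp [hil, hil']), Finset.sum_pair hll, ki, kl, kl', wi, wl, wl']
      push_cast
      ring
    · intro j _ hj
      simp only [Finset.mem_insert, Finset.mem_singleton, not_or] at hj
      simp [hk, hj.1, hj.2.1, hj.2.2]
  · intro j hj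
    rw [ki]
    simp only [hk, hj, if_false]
    split_ifs <;> omega

/-- primes dividing a nonzero integer -/
theorem sum_log_primes_le {A : Finset ℕ} {W : ℤ} (hW : W ≠ 0)
    (hA : ∀ p ∈ A, p.Prime ∧ (p : ℤ) ∣ W) : ∑ p ∈ A, Real.log p ≤ Real.log |(W : ℝ)| := by
  have h1 : ∏ p ∈ A, p ∣ W.natAbs := by
    refine Finset.prod_primes_dvd _ (fun p hp => (hA p hp).1.prime) fun p hp => ?_
    exact Int.natCast_dvd.1 (hA p hp).2
  have h2 : ∏ p ∈ A, p ≤ W.natAbs := Nat.le_of_dvd (Int.natAbs_pos.2 hW) h1
  have h3 : 0 < ∏ p ∈ A, p := Finset.prod_pos fun p hp => (hA p hp).1.pos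
  have h4 : ∑ p ∈ A, Real.log p = Real.log ((∏ p ∈ A, p : ℕ) : ℝ) := by
    push_cast
    rw [Real.log_prod]
    intro p hp
    have := (hA p hp).1.pos
    positivity
  rw [h4]
  refine Real.log_le_log (by exact_mod_cast h3) ?_
  have h5 : ((∏ p ∈ A, p : ℕ) : ℝ) ≤ (W.natAbs : ℝ) := by exact_mod_cast h2
  rwa [Nat.cast_natAbs, Int.cast_abs] at h5

theorem abs_eval_le (q : Polynomial ℤ) {t : ℤ} (ht : 1 ≤ t) :
    |((q.eval t : ℤ) : ℝ)| ≤ (∑ i ∈ Finset.range (q.natDegree + 1), |((q.coeff i : ℤ) : ℝ)|) *
      (t : ℝ) ^ q.natDegree := by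
  rw [Polynomial.eval_eq_sum_range]
  push_cast
  refine (Finset.abs_sum_le_sum_abs _ _).trans ?_
  rw [Finset.sum_mul]
  refine Finset.sum_le_sum fun i hi => ?_
  rw [Finset.mem_range] at hi
  have ht' : (1 : ℝ) ≤ t := by exact_mod_cast ht
  rw [abs_mul, abs_pow, abs_of_nonneg (by linarith : (0 : ℝ) ≤ t)]
  exact mul_le_mul_of_nonneg_left (pow_le_pow_right₀ ht' (by omega)) (abs_nonneg _)

/-- a nonzero polynomial does not vanish at `2 ^ m`, `m` large -/
theorem eventually_ne {R : Type*} [CommRing R] [IsDomain R] [CharZero R] (P : Polynomial R)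
    (hP : P ≠ 0) : ∀ᶠ m : ℕ in Filter.atTop, P.eval ((2 ^ m : ℕ) : R) ≠ 0 := by
  rw [← Nat.cofinite_eq_atTop, Filter.eventually_cofinite]
  have h1 : {m : ℕ | ¬ P.eval ((2 ^ m : ℕ) : R) ≠ 0} =
      (fun m : ℕ => ((2 ^ m : ℕ) : R)) ⁻¹' {x | P.IsRoot x} := by
    ext m
    simp [Polynomial.IsRoot]
  rw [h1]
  refine Set.Finite.preimage (fun m _ m' _ h => ?_) (Polynomial.finite_setOfPred_isRoot hP)
  have h2 : 2 ^ m = 2 ^ m' := by exact_mod_cast h
  exact Nat.pow_right_injective le_rfl h2

end Pool.Agent.X323.TV
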